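import Pool.Agent.MP_1246c0_nt.H25.SpecN

/-! Lattices of small rank are rare. -/

namespace Pool.Agent.MP_1246c0_nt.H25

open Finset Matrix Filter Function Pool.Agent.MP_db5b97_nt.H85
open Pool.Agent.MP_1246c0_nt.H12

namespace E5

theorem ind_pos {p : Prop} (h : p) : ind p = 1 := if_pos h

theorem ind_neg {p : Prop} (h : ¬p) : ind p = 0 := if_neg h

theorem ind_nn (p : Prop) : 0 ≤ ind p := by
  by_cases h : p
  · rw [ind_pos h]; exact zero_le_one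
  · rw [ind_neg h]

theorem ind_le {p : Prop} {x : ℝ} (h0 : 0 ≤ x) (h1 : p → 1 ≤ x) : ind p ≤ x := by
  by_cases h : p
  · rw [ind_pos h]; exact h1 h
  · rw [ind_neg h]; exact h0

theorem card_Rd (ℓ J : ℕ) : (Fintype.card (Rd ℓ J) : ℝ) = 2 ^ (ℓ * ℓ * J) * 16 ^ (ℓ * ℓ) := by
  simp only [Fintype.card_prod, Fintype.card_pi, Fintype.card_fin, prod_const, card_univ]
  push_cast
  rw [← pow_mul, ← pow_mul, ← pow_mul, ← mul_pow]
  congr 2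
  · ring
  · norm_num

/-- one term of the majorant -/
noncomputable def tm (S : Sy) (κ X J n ℓ a : ℕ) (r : Rd ℓ J) : Fn := fun Sg _ i1 p P =>
  ind ((mdo r a n).Ok J) * (ind (Gg S.Φ (mdo r a n) κ X (prs Sg p) P (.inl i1)) *
    zz S.Φ (mdo r a n) (prs Sg p) P J)

theorem tm_nn (S : Sy) (κ X J n ℓ a : ℕ) (r : Rd ℓ J) (Sg : Finset ℕ) (m : ℕ) (i1 : Sg)
    (p : Fin m → ℕ) (P : ℕ) : 0 ≤ tm S κ X J n ℓ a r Sg m i1 p P :=
  mul_nonneg (ind_nn _) (mul_nonneg (ind_nn _) (Nat.cast_nonneg _))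

theorem tm_mean (hG : SG0) (hR : SREC) {S : Sy} (hS : Ax S) (κ : ℕ) {J : ℕ} (hJ : 3 ≤ J)
    (n : ℕ) {ℓ : ℕ} (hℓ : 1 ≤ ℓ) (a : ℕ) (r : Rd ℓ J) : ∀ᶠ X : ℕ in atTop,
    GS X (tm S κ X J n ℓ a r) ≤ (4 ^ κ + 1) / 2 ^ (J - 3) * X := by
  by_cases h : (mdo r a n).Ok J
  · filter_upwards [hR ℓ κ J _ S (1 / 2 ^ (J - 3)) hS h hJ (by positivity)] with X hX
    refine (hG.mono X _ _ fun Sg m i1 p P _ => ?_).trans (hX.trans ?_)
    · rw [tm, ind_pos h, one_mul]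
    · rw [add_div]
      gcongr
      · exact one_le_two
      · exact Nat.le_mul_of_pos_left _ hℓ
  · refine Eventually.of_forall fun X => ?_
    refine (hG.mono X _ (fun _ _ _ _ _ => 0) fun Sg m i1 p P _ => ?_).trans
      ((hG.tot X 0 le_rfl).trans ?_)
    · rw [tm, ind_neg h, zero_mul]
    · rw [zero_mul]
      positivity

end E5

open E5 in
theorem rowE5 : OfE5 := by
  intro hO hG hR ε L A κ hε
  obtain ⟨k, hk⟩ := pow_unbounded_of_one_lt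
    (L * (A + 1) * (2 ^ (L * L + 2) * 16 ^ (L * L)) * (4 ^ κ + 1) / ε : ℝ) one_lt_two
  refine ⟨k + 3, by omega, fun S hS => ?_⟩
  have ev : ∀ᶠ X : ℕ in atTop, ∀ ℓ ∈ Icc 1 L, ∀ a ∈ range (A + 1), ∀ r : Rd ℓ (k + 3),
      GS X (tm S κ X (k + 3) (A + (k + 3)) ℓ a r) ≤ (4 ^ κ + 1) / 2 ^ k * X :=
    (eventually_all_finset _).2 fun ℓ hℓ => (eventually_all_finset _).2 fun a _ =>
      eventually_all.2 fun r => tm_mean hG hR hS κ (by omega) _ (mem_Icc.1 hℓ).1 a r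
  filter_upwards [ev] with X hX
  refine (hG.mono X _ (fun Sg m i1 p P => ∑ ℓ ∈ Icc 1 L, ∑ a ∈ range (A + 1),
    (2 : ℝ) ^ (ℓ * ℓ + 2) / 2 ^ (ℓ * ℓ * (k + 3)) * ∑ r : Rd ℓ (k + 3),
      tm S κ X (k + 3) (A + (k + 3)) ℓ a r Sg m i1 p P) fun Sg m i1 p P hV => ?_).trans ?_
  · have nn : ∀ ℓ a : ℕ, 0 ≤ (2 : ℝ) ^ (ℓ * ℓ + 2) / 2 ^ (ℓ * ℓ * (k + 3)) *
        ∑ r : Rd ℓ (k + 3), tm S κ X (k + 3) (A + (k + 3)) ℓ a r Sg m i1 p P := fun ℓ a =>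
      mul_nonneg (by positivity) (sum_nonneg fun r _ => tm_nn ..)
    refine ind_le (sum_nonneg fun ℓ _ => sum_nonneg fun a _ => nn ℓ a) ?_
    rintro ⟨ℓ, μ, h1, h2, h3, h4, h5, h6, h7⟩
    refine le_trans ?_ (single_le_sum (fun ℓ _ => sum_nonneg fun a _ => nn ℓ a)
      (mem_Icc.2 ⟨h1, h2⟩))
    refine le_trans ?_ (single_le_sum (fun a _ => nn ℓ a) (mem_range.2 (Nat.lt_succ_of_le h3)))
    have := hO _ ℓ S.Φ μ (prs Sg p) P (k + 3) (.inl i1) hS.one hV.lb h5 h6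
    rw [div_mul_eq_mul_div, le_div_iff₀ (by positivity), one_mul]
    refine this.trans (le_of_eq ?_)
    congr 1
    refine sum_congr rfl fun r _ => ?_
    rw [tm, h4]
    by_cases h : (mdo r μ.a (A + (k + 3))).Ok (k + 3)
    · rw [ind_pos (h7 (mdo r μ.a (A + (k + 3))) h3 rfl
        ⟨h.adm, le_trans (Nat.add_le_add_left (Nat.le_add_left 3 k) _) h.le, by omega⟩), one_mul]
    · rw [ind_neg h, zero_mul, zero_mul]
  rw [hG.sum]
  have one : ∀ ℓ ∈ Icc 1 L, GS X (fun Sg m i1 p P => ∑ a ∈ range (A + 1),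
      (2 : ℝ) ^ (ℓ * ℓ + 2) / 2 ^ (ℓ * ℓ * (k + 3)) * ∑ r : Rd ℓ (k + 3),
        tm S κ X (k + 3) (A + (k + 3)) ℓ a r Sg m i1 p P) ≤
      (A + 1) * (2 ^ (L * L + 2) * 16 ^ (L * L)) * ((4 ^ κ + 1) / 2 ^ k * X) := by
    intro ℓ hℓ
    have hL : ℓ * ℓ ≤ L * L := Nat.mul_self_le_mul_self (mem_Icc.1 hℓ).2
    rw [hG.sum]
    refine (sum_le_card_nsmul _ _ ((2 ^ (L * L + 2) * 16 ^ (L * L)) *
      ((4 ^ κ + 1) / 2 ^ k * X : ℝ)) fun a ha => ?_).trans (le_of_eq ?_)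
    · rw [hG.mul, hG.sum]
      refine (mul_le_mul_of_nonneg_left (sum_le_card_nsmul _ _ _ fun r _ => hX ℓ hℓ a ha r)
        (by positivity)).trans ?_
      rw [card_univ, nsmul_eq_mul, card_Rd, ← mul_assoc, ← mul_assoc (_ / _ : ℝ) (2 ^ _),
        div_mul_cancel₀ _ (by positivity)]
      gcongr
      · exact one_le_two
      · norm_num
    · rw [card_range, nsmul_eq_mul]
      push_cast
      ring
  refine (sum_le_card_nsmul _ _ _ one).trans ?_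
  rw [Nat.card_Icc, Nat.add_sub_cancel, nsmul_eq_mul]
  rw [div_lt_iff₀ hε] at hk
  have : (L * (A + 1) * (2 ^ (L * L + 2) * 16 ^ (L * L)) * (4 ^ κ + 1) : ℝ) / 2 ^ k ≤ ε := by
    rw [div_le_iff₀ (by positivity)]
    linarith
  calc _ = (L * (A + 1) * (2 ^ (L * L + 2) * 16 ^ (L * L)) * (4 ^ κ + 1) : ℝ) / 2 ^ k * X := by
        ring
    _ ≤ _ := by gcongr

end Pool.Agent.MP_1246c0_nt.H25
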