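import Pool.Agent.MP_1246c0_nt.H25.SpecR

/-! Elimination of one index at level zero. -/

namespace Pool.Agent.MP_1246c0_nt.H25

open Finset Matrix
open Pool.Agent.MP_1246c0_nt.H12

namespace ELM

theorem f2 : ∀ x : F2, x = 0 ∨ x = 1 := by decide

theorem le1 {ι : Type} {p : ι → Prop} {s : Finset {l // p l}} {t : Finset ι}
    (h : ∀ x ∈ s, x.1 ∈ t) : s.card ≤ t.card :=
  card_le_card_of_injOn Subtype.val (fun x hx => h x hx) Subtype.val_injective.injOn

theorem le2 {ι : Type} {p : ι → Prop} {s : Finset {l // p l}} {t : Finset ι}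
    (h : ∀ l ∈ t, ∃ hl : p l, (⟨l, hl⟩ : {l // p l}) ∈ s) : t.card ≤ s.card := by
  classical
  exact card_le_card_of_surjOn Subtype.val fun l hl => (h l hl).elim fun h1 h2 => ⟨_, h2, rfl⟩

variable {ι G : Type} [Fintype ι] [DecidableEq ι] [AddCommGroup G] {lv : ι → ℕ} {e : ι → F2}
  {i : ι} {S : Matrix ι ι F2}

theorem sumK (f : ι → G) (h : ∑ l, e l = 0 ∧ ∑ l, z0 lv l = 1 → f i = 0) :
    ∑ l : Kp lv e i, f l.1 = ∑ l, f l := by
  refine Fintype.sum_of_injective Subtype.val Subtype.val_injective _ _ (fun l hl => ?_)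
    fun _ => rfl
  by_contra h0
  refine hl ⟨⟨l, ?_⟩, rfl⟩
  by_contra h1
  rw [not_or, not_not, not_not] at h1
  exact h0 (h1.1 ▸ h h1.2)

theorem sumO (h0 : lv i = 0) (f : ι → G) (hf : ∀ l, lv l ≠ 0 → f l = 0) :
    ∑ l ∈ elO lv e i, f l.1
      = ∑ l ∈ univ.erase i, f l + if ∑ l, z0 lv l = 0 then f i else 0 := by
  rw [elO, sum_filter, sumK (fun l => if lv l = 0 ∧ (l ≠ i ∨ ∑ l, z0 lv l = 0) then f l else 0)
    fun h => if_neg (by simp [h.2]), ← sum_erase_add _ _ (mem_univ i)]
  congr 1
  · refine sum_congr rfl fun l hl => ?_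
    by_cases h : lv l = 0
    · exact if_pos ⟨h, Or.inl (ne_of_mem_erase hl)⟩
    · rw [if_neg fun x => h x.1, hf l h]
  · simp [h0]

theorem off {l l' : ι} (h0 : lv i = 0) (h : lv l ≠ 0) (h' : lv l' ≠ 0) :
    elS lv e i S l l' = S l l' := by
  have a : l ≠ i := fun x => h (x ▸ h0)
  have a' : l' ≠ i := fun x => h' (x ▸ h0)
  simp [elS, a, a', z0, h, h']

theorem row (hne : ¬(∑ l, e l = 0 ∧ ∑ l, z0 lv l = 0)) (h0 : lv i = 0) {w v : ι → F2}
    (h1 : ∀ l, l ≠ i → v l = w l) (h2 : v i = ∑ l ∈ univ.erase i, z0 lv l * w l + w i) {l' : ι}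
    (h' : lv l' ≠ 0) : ∑ l, w l * elS lv e i S l l' = ∑ l, v l * S l l' := by
  have a' : l' ≠ i := fun x => h' (x ▸ h0)
  have z : z0 lv l' = 0 := if_neg h'
  rw [← sum_erase_add _ _ (mem_univ i), ← sum_erase_add _ (fun l => v l * S l l') (mem_univ i), h2,
    add_mul, sum_mul, ← add_assoc, ← sum_add_distrib]
  congr 1
  · refine sum_congr rfl fun l hl => ?_
    have a := ne_of_mem_erase hl
    rw [elS, if_neg hne, if_neg a, if_neg a', z, h1 l a]
    ring
  · rw [elS, if_neg hne, if_pos rfl, if_neg a', z, zero_mul, add_zero]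

variable [Module F2 G]

theorem two (x : G) : x + x = 0 := by
  rw [← two_smul F2, show (2 : F2) = 0 from rfl, zero_smul]

theorem col (hne : ¬(∑ l, e l = 0 ∧ ∑ l, z0 lv l = 0)) {x y : ι → G} (h1 : ∀ l, l ≠ i → y l = x l)
    (h2 : x i = ∑ l ∈ univ.erase i, z0 lv l • x l + (1 + ∑ l, z0 lv l) • y i) (l : ι) :
    ap (elS lv e i S) y l
      = if l = i then ap S x i else ap S x l + z0 lv l • ap S x i + e l • y i := by
  have a : ∀ l, ap S x l = ∑ l' ∈ univ.erase i, S l l' • x l' + S l i • x i := fun l =>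
    (sum_erase_add _ _ (mem_univ i)).symm
  rw [ap, ← sum_erase_add _ _ (mem_univ i)]
  split_ifs with h
  · have : ∀ l' ∈ univ.erase i, elS lv e i S l l' • y l'
        = S i l' • x l' + S i i • z0 lv l' • x l' := fun l' hl => by
      rw [elS, if_neg hne, if_pos h, if_neg (ne_of_mem_erase hl), h1 l' (ne_of_mem_erase hl)]
      module
    rw [sum_congr rfl this, sum_add_distrib, ← smul_sum, a, h2, elS, if_neg hne, if_pos h,
      if_pos rfl]
    module
  · have : ∀ l' ∈ univ.erase i, elS lv e i S l l' • y l' = S l l' • x l' + z0 lv l • S i l' • x l'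
        + (S l i + z0 lv l * S i i) • z0 lv l' • x l' := fun l' hl => by
      rw [elS, if_neg hne, if_neg h, if_neg (ne_of_mem_erase hl), h1 l' (ne_of_mem_erase hl)]
      module
    rw [sum_congr rfl this, sum_add_distrib, sum_add_distrib, ← smul_sum, ← smul_sum, a, a, h2, elS,
      if_neg hne, if_neg h, if_pos rfl]
    module

/-- from a solution in graph form to a generating solution -/
theorem fin [Finite G] {κ : Type} [Fintype κ] [DecidableEq κ] {T : Matrix κ κ F2} {c : κ → F2}
    {P O : Finset κ} {b : Bool} {u : Module.End F2 G} {x r : κ → G} {γ : ℕ} (hO : O ⊆ P)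
    (hg : ∀ l ∈ P, grf b u (x l) (r l))
    (h1 : ∀ l, ap T x l = if l ∈ P then r l + ∑ l' ∈ O, r l' else 0) (h2 : ∑ l, c l • x l = 0)
    (h3 : Gen u x) (h4 : 2 ^ γ ≤ Nat.card G) : BadG T c P O b γ := by
  have hx : xv P b u (fun l => if l ∈ P ∧ b = true then r l else x l) = x := funext fun l => by
    unfold xv
    split_ifs with h
    · have := hg l h.1
      rw [grf, if_pos h.2] at this
      exact (congrArg u (if_pos h)).trans this.symm
    · exact if_neg h
  refine ⟨G, _, _, inferInstance, u, fun l => if l ∈ P ∧ b = true then r l else x l, h4,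
    ⟨fun l => ?_, by rw [hx, h2]⟩, fun W hu hW => h3 W hu fun l => ?_⟩
  · rw [hx, h1, rvo]
    refine if_ctx_congr Iff.rfl (fun hl => ?_) fun _ => rfl
    cases b
    · simp only [grf, Bool.false_eq_true, if_false, and_false] at hg ⊢
      rw [map_add, map_sum, hg l hl, sum_congr rfl fun l' h => hg l' (hO h)]
    · rw [if_pos rfl, if_pos ⟨hl, rfl⟩, sum_congr rfl fun l' h => if_pos ⟨hO h, rfl⟩]
  · rw [← hx, xv]
    split_ifs
    exacts [hu _ (by simpa [*] using hW l), by simpa [*] using hW l]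

theorem sol [Finite G] {b : Bool} {u : Module.End F2 G} {x : ι → G} {xt m : G} {γ : ℕ}
    (h0 : lv i = 0) (he : e i = 0) (L : Lz lv e S b u x xt m) (hγ : 2 ^ γ ≤ Nat.card G) :
    BadLo lv e i S γ 0 b := by
  rw [BadLo, if_pos rfl]
  have zi : z0 lv i = 1 := if_pos h0
  obtain ⟨r, hr⟩ : ∃ r : ι → G, ∀ l, r l = ap S x l + e l • xt + z0 lv l • m := ⟨_, fun _ => rfl⟩
  have r0 : ∀ l, lv l ≠ 0 → r l = 0 := fun l h => by
    rw [hr, L.off l h, z0, if_neg h, zero_smul, add_zero]
  have rg : ∀ l, lv l = 0 → grf b u (x l) (r l) := fun l h => by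
    rw [hr, z0, if_pos h, one_smul]
    exact L.pen l h
  have ex : (∑ l, e l) • xt = xt := by
    rcases f2 (∑ l, e l) with h | h
    · rw [L.tz h, smul_zero]
    · rw [h, one_smul]
  have rs : ∑ l ∈ univ.erase i, r l + r i = m + (∑ l, z0 lv l) • m := by
    rw [sum_erase_add _ _ (mem_univ i), sum_congr rfl fun l _ => hr l, sum_add_distrib,
      sum_add_distrib, ← sum_smul, ← sum_smul, L.q0, ex]
    linear_combination (norm := module) two xt
  have hO : elO lv e i ⊆ elP lv e i := fun l hl =>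
    mem_filter.2 ⟨mem_univ _, (mem_filter.1 hl).2.1⟩
  have hP : ∀ l, l ∈ elP lv e i ↔ lv l.1 = 0 := fun l => by simp [elP]
  by_cases hne : ∑ l, e l = 0 ∧ ∑ l, z0 lv l = 0
  · have k : ¬(∑ l, e l = 0 ∧ ∑ l, z0 lv l = 1) := fun h => zero_ne_one (hne.2.symm.trans h.2)
    refine fin (x := fun l => x l.1) (r := fun l => r l.1) hO (fun l hl => rg _ ((hP l).1 hl))
      (fun l => ?_) ?_ (fun W hu hW => L.gen W hu ?_) hγ
    · rw [hne.2, zero_smul, add_zero] at rs
      rw [sumO h0 r r0, if_pos hne.2, rs]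
      refine (sumK (fun l' => elS lv e i S l.1 l' • x l') fun h => (k h).elim).trans ?_
      simp only [elS, if_pos hne, hP]
      have := hr l.1
      rw [L.tz hne.1, smul_zero, add_zero, z0] at this
      split_ifs at this ⊢ with h
      · rw [this, one_smul, add_assoc, two, add_zero, ap]
      · rw [r0 _ h, zero_smul, add_zero] at this
        exact this.symm
    · refine (sumK (fun l => elc e i l • x l) fun h => (k h).elim).trans ?_
      rw [← L.inf, L.tz hne.1, add_zero]
      refine sum_congr rfl fun l _ => ?_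
      rw [elc]
      split_ifs with h
      · rw [hne.1, h, he]
      · rfl
    · rintro (_ | l)
      · exact L.tz hne.1 ▸ W.zero_mem
      · exact hW ⟨l, Or.inr k⟩
  · have xi : x i = ∑ l ∈ univ.erase i, z0 lv l • x l + (1 + ∑ l, z0 lv l) • xt := by
      have := sum_erase_add univ (fun l => z0 lv l • x l) (mem_univ i)
      rw [zi, one_smul] at this
      rcases f2 (∑ l, z0 lv l) with h | h
      · rw [L.f3 ((f2 _).resolve_left fun a => hne ⟨a, h⟩) h] at this
        rw [h]
        linear_combination (norm := module) this - two (∑ l ∈ univ.erase i, z0 lv l • x l)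
      · rw [L.f1 h] at this
        rw [h]
        linear_combination (norm := module) this - two (∑ l ∈ univ.erase i, z0 lv l • x l) - two xt
    have e1 : ∀ l : Kp lv e i, l.1 = i → ∑ l, e l = 1 := fun l h =>
      (f2 _).resolve_left fun a => (f2 _).elim (fun c => hne ⟨a, c⟩) fun c =>
        l.2.elim (fun d => d h) fun d => d ⟨a, c⟩
    have so : ∑ l ∈ elO lv e i, Function.update r i m l.1 = r i := by
      rw [sumO h0 _ fun l h =>
        (Function.update_of_ne (fun a : l = i => h (a ▸ h0)) _ _).trans (r0 l h),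
        Function.update_self, sum_congr rfl fun l h => Function.update_of_ne (ne_of_mem_erase h) _ _]
      rcases f2 (∑ l, z0 lv l) with h | h
      · rw [h] at rs
        rw [if_pos h]
        linear_combination (norm := module) rs + two m - two (r i)
      · rw [h] at rs
        rw [if_neg (h ▸ one_ne_zero)]
        linear_combination (norm := module) rs + two m - two (r i)
    refine fin (x := fun l => Function.update x i xt l.1) (r := fun l => Function.update r i m l.1)
      hO (fun l hl => ?_) (fun l => ?_) ?_ (fun W hu hW => L.gen W hu ?_) hγ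
    · by_cases h : l.1 = i
      · rw [h, Function.update_self, Function.update_self]
        exact L.tau (e1 l h)
      · rw [Function.update_of_ne h, Function.update_of_ne h]
        exact rg _ ((hP l).1 hl)
    · refine (sumK (fun l' => elS lv e i S l.1 l' • Function.update x i xt l') fun h => by
        rw [Function.update_self, L.tz h.1, smul_zero]).trans ?_
      refine (col hne (fun l h => Function.update_of_ne h _ _)
        (by rw [Function.update_self, xi]) l.1).trans ?_
      have ri := hr i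
      rw [he, zi] at ri
      rw [so, Function.update_self]
      by_cases h : l.1 = i
      · rw [if_pos h, if_pos ((hP l).2 ((congrArg lv h).trans h0)), h, Function.update_self]
        linear_combination (norm := module) -ri - two m
      · rw [if_neg h, Function.update_of_ne h]
        have rl := hr l.1
        by_cases h' : lv l.1 = 0
        · rw [z0, if_pos h'] at rl
          rw [if_pos ((hP l).2 h'), z0, if_pos h']
          linear_combination (norm := module) -rl - ri - two m
        · rw [if_neg (mt (hP l).1 h'), z0, if_neg h', zero_smul, add_zero, L.off _ h']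
    · refine (sumK (fun l => elc e i l • Function.update x i xt l) fun h => by
        rw [Function.update_self, L.tz h.1, smul_zero]).trans ?_
      rw [← L.inf, ← sum_erase_add _ _ (mem_univ i), ← sum_erase_add _ (fun l => e l • x l)
        (mem_univ i), he, zero_smul, add_zero, Function.update_self, elc, if_pos rfl, ex]
      refine congrArg (· + xt) (sum_congr rfl fun l h => ?_)
      rw [elc, if_neg (ne_of_mem_erase h), Function.update_of_ne (ne_of_mem_erase h)]
    · have w1 : ∀ l, l ≠ i → x l ∈ W := fun l h =>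
        Function.update_of_ne h xt x ▸ hW ⟨l, Or.inl h⟩
      have w2 : xt ∈ W := by
        rcases f2 (∑ l, e l) with h | h
        · exact L.tz h ▸ W.zero_mem
        · simpa using hW ⟨i, Or.inr fun a => zero_ne_one (a.1.symm.trans h)⟩
      rintro (_ | l)
      · exact w2
      · change x l ∈ W
        by_cases h : l = i
        · rw [h, xi]
          exact add_mem (sum_mem fun l h => W.smul_mem _ (w1 l (ne_of_mem_erase h)))
            (W.smul_mem _ w2)
        · exact w1 l h

/-- extension by zero -/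
def ext (w : Kp lv e i → F2) (l : ι) : F2 :=
  if h : l ≠ i ∨ ¬(∑ l, e l = 0 ∧ ∑ l, z0 lv l = 1) then w ⟨l, h⟩ else 0

theorem ext_val (w : Kp lv e i → F2) (l : Kp lv e i) : ext w l.1 = w l := dif_pos l.2

theorem ext_i (w : Kp lv e i → F2) (h : ∑ l, e l = 0 ∧ ∑ l, z0 lv l = 1) : ext w i = 0 :=
  dif_neg (by simp [h])

theorem kr (h0 : lv i = 0) :
    Kr ((elS lv e i S).submatrix Subtype.val Subtype.val) (fun l => elc e i l.1) (elP lv e i) =
      Kr (ι := {l // 1 ≤ lv l}) (S.submatrix Subtype.val Subtype.val) (fun l => e l.1) ∅ := by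
  have ne : ∀ l, lv l ≠ 0 → l ≠ i := fun l h x => h (x ▸ h0)
  let em : {l // 1 ≤ lv l} → Kp lv e i := fun l => ⟨l.1, Or.inl (ne _ (by have := l.2; omega))⟩
  have sm : ∀ (y a : Kp lv e i → F2) (a' : {l // 1 ≤ lv l} → F2), (∀ l ∈ elP lv e i, y l = 0) →
      (∀ l, a' l = a (em l)) → ∑ l, a' l * y (em l) = ∑ l, a l * y l := fun y a a' hy ha =>
    Fintype.sum_of_injective em (fun _ _ h => Subtype.ext (congrArg (·.1) h)) _ _ (fun l hl => by
      rw [hy l (mem_filter.2 ⟨mem_univ _, by_contra fun h =>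
        hl ⟨⟨l.1, Nat.pos_of_ne_zero h⟩, rfl⟩⟩), mul_zero]) fun l => by rw [ha]
  have key : ∀ y : Kp lv e i → F2, (∀ l ∈ elP lv e i, y l = 0) →
      (((∀ l, l ∉ elP lv e i → ((elS lv e i S).submatrix Subtype.val Subtype.val *ᵥ y) l = 0) ∧
        dot univ (fun l => elc e i l.1) y = 0) ↔ (∀ l : {l // 1 ≤ lv l}, l ∉ (∅ : Finset _) →
          (S.submatrix Subtype.val Subtype.val *ᵥ fun l => y (em l)) l = 0) ∧
            dot univ (fun l : {l // 1 ≤ lv l} => e l.1) (fun l => y (em l)) = 0) := fun y hy => by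
    have s1 : ∀ l : {l // 1 ≤ lv l}, (S.submatrix Subtype.val Subtype.val *ᵥ fun l => y (em l)) l
        = ((elS lv e i S).submatrix Subtype.val Subtype.val *ᵥ y) (em l) := fun l =>
      sm y _ _ hy fun l' => (off h0 (by have := l.2; omega) (by have := l'.2; omega)).symm
    rw [dot, dot, sm y (fun l => elc e i l.1) _ hy fun l =>
      (if_neg (ne l.1 (by have := l.2; omega))).symm]
    refine and_congr_left' ⟨fun h l _ => (s1 l).trans (h _ fun a => ?_), fun h l hl => ?_⟩
    · have := l.2
      have : lv l.1 = 0 := (mem_filter.1 a).2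
      omega
    · exact (s1 ⟨l.1, Nat.pos_of_ne_zero fun a => hl (mem_filter.2 ⟨mem_univ _, a⟩)⟩).symm.trans
        (h _ (notMem_empty _))
  refine Nat.card_eq_of_bijective (fun y => ⟨fun l => y.1 (em l), by simp,
    (key y.1 y.2.1).1 y.2.2⟩) ⟨fun y y' h => Subtype.ext (funext fun l => ?_), fun y => ?_⟩
  · by_cases a : lv l.1 = 0
    · rw [y.2.1 l (mem_filter.2 ⟨mem_univ _, a⟩), y'.2.1 l (mem_filter.2 ⟨mem_univ _, a⟩)]
    · exact congrFun (congrArg Subtype.val h) ⟨l.1, Nat.pos_of_ne_zero a⟩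
  · have a : ∀ l ∈ elP lv e i, (if h : 1 ≤ lv l.1 then y.1 ⟨l.1, h⟩ else 0) = 0 := fun l hl =>
      dif_neg (by have : lv l.1 = 0 := (mem_filter.1 hl).2; omega)
    have c : (fun l => if h : 1 ≤ lv (em l).1 then y.1 ⟨(em l).1, h⟩ else 0) = y.1 :=
      funext fun l => dif_pos l.2
    exact ⟨⟨_, a, (key _ a).2 (by rw [c]; exact y.2.2)⟩, Subtype.ext c⟩

end ELM

open ELM in
theorem rowELM : SELM := by
  refine ⟨fun ι G _ _ _ _ _ lv e i S b u x xt m γ => sol, fun ι _ _ lv e i S H h => ?_, ?_⟩
  · ext l l'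
    simp only [elS, Matrix.add_apply]
    split_ifs with h1 h2 h3 h4
    · rfl
    · rw [h2, (h _).2, (h _).2, add_zero, add_zero]
    · rw [h2, (h _).2, (h _).2, add_zero, add_zero, add_zero]
    · rw [h4, (h _).1, (h _).1, add_zero, add_zero, add_zero]
    · rw [(h _).1, (h _).1, (h _).2]
      ring
  intro ι _ _ lv e B i S tp j0 b hN hF hs hj ht
  have ne : ∀ l ∈ B, l ≠ i := fun l h x => hF.nb (x ▸ h)
  have mB : ∀ l (h : l ∈ B), (⟨l, Or.inl (ne l h)⟩ : Kp lv e i) ∈ univ.filter fun l => l.1 ∈ B :=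
    fun l h => mem_filter.2 ⟨mem_univ _, h⟩
  have nP : ∀ l (h : l ∈ B), lv l ≠ 0 → (⟨l, Or.inl (ne l h)⟩ : Kp lv e i) ∉ elP lv e i :=
    fun l h h1 h2 => h1 (mem_filter.1 h2).2
  have ec : ∀ l ∈ B, elc e i l = e l := fun l h => if_neg (ne l h)
  obtain ⟨q, hq⟩ := card_pos.1 ((Nat.two_pow_pos _).trans_le (hN.cnt tp le_rfl 1).1)
  obtain ⟨q1, q2, q3⟩ := mem_filter.1 hq
  have eB : ∀ w : Kp lv e i → F2, (∀ l ∈ univ.filter fun l : Kp lv e i => l.1 ∈ B, w l = 0) →
      ∀ l ∈ B, ext w l = 0 := fun w hw l h => (ext_val w ⟨l, Or.inl (ne l h)⟩).trans (hw _ (mB l h))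
  have x5 : ∀ a ≤ 1, xx tp j0 1 ^ 5 ≤ 2 ^ jj tp j0 a := fun a ha => by
    rw [xx, ← pow_mul]
    exact Nat.pow_le_pow_right two_pos (by unfold jj; omega)
  refine ⟨⟨fun l hl l' hl' => ?_, fun w w0 hw h => ?_, fun w hw h => ?_, inter_subset_right,
    fun l hl => ?_, fun ε => ?_, ?_, ?_⟩, ⟨fun l hl => ?_, ?_, Or.inr fun l hl => ?_⟩, ?_,
    fun H _ => kr hF.lv0⟩
  · have b1 := (mem_filter.1 hl).2
    have b2 := (mem_filter.1 hl').2
    have h1 := hs l.1 b1 l'.1 b2
    simp only [Matrix.submatrix_apply, Subtype.ext_iff, ec _ b1, ec _ b2, RingHom.id_apply] at h1 ⊢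
    rw [← h1]
    simp only [elS, if_neg (ne _ b1), if_neg (ne _ b2)]
    split_ifs
    · rfl
    rw [hF.sy _ b1, hF.sy _ b2]
    linear_combination two (z0 lv l'.1 * S i l.1 + z0 lv l.1 * S i l'.1
      + z0 lv l.1 * z0 lv l'.1 * S i i)
  · have h1 : ∀ l' ∈ B, lv l' ≠ 0 → ∑ l, ext w l * elS lv e i S l l' + w0 * e l' = 0 :=
      fun l' a c => by
        rw [← sumK (fun l => ext w l * elS lv e i S l l') fun k => by rw [ext_i w k, zero_mul],
          ← ec _ a]
        simpa only [ext_val, RingHom.id_apply, Matrix.submatrix_apply] using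
          h _ (mB l' a) (nP l' a c)
    have h2 : ∀ v : ι → F2, (∀ l, l ≠ i → v l = ext w l) →
        (∀ l', lv l' ≠ 0 → ∑ l, ext w l * elS lv e i S l l' = ∑ l, v l * S l l') → v = 0 :=
      fun v a c => by_contra fun h0 => by
        have vB : ∀ l ∈ B, v l = 0 := fun l k => (a l (ne l k)).trans (eB w hw l k)
        obtain ⟨l', k1, k2, k3, k4⟩ := hN.det v vB h0
        have := h1 l' k1 (by omega)
        rw [c l' (by omega), k3, mul_zero, add_zero] at this
        refine one_ne_zero (k4.symm.trans (Eq.trans (sum_congr rfl fun k _ => ?_) this))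
        by_cases hk : k ∈ B
        · rw [vB k hk, mul_zero, zero_mul]
        · rw [hN.cross l' k1 k hk k3, mul_comm]
    have h3 : ext w = 0 := by
      by_cases hne : ∑ l, e l = 0 ∧ ∑ l, z0 lv l = 0
      · exact h2 _ (fun _ _ => rfl) fun l' _ => by simp only [elS, if_pos hne]
      · have := h2 (Function.update (ext w) i _) (fun l a => Function.update_of_ne a _ _)
          fun l' a => row hne hF.lv0 (fun l a => Function.update_of_ne a _ _)
            (Function.update_self ..) a
        have a : ∀ l, l ≠ i → ext w l = 0 := fun l k =>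
          (Function.update_of_ne k _ _).symm.trans (congrFun this l)
        have c := congrFun this i
        rw [Function.update_self, sum_eq_zero fun l k => by
          rw [a l (ne_of_mem_erase k), mul_zero], zero_add] at c
        exact funext fun l => if k : l = i then k ▸ c else a l k
    have h4 := h1 q q1 (by omega)
    rw [h3, q3] at h4
    exact ⟨funext fun l => (ext_val w l).symm.trans (congrFun h3 l.1), by simpa using h4⟩
  · have h1 : ∀ l ∈ B, lv l ≠ 0 → ap (elS lv e i S) (ext w) l = 0 := fun l a c => by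
      rw [ap, ← sumK (fun l' => elS lv e i S l l' • ext w l') fun k => by rw [ext_i w k, smul_zero]]
      simpa only [ext_val, RingHom.id_apply, Matrix.submatrix_apply, smul_eq_mul] using
        h _ (mB l a) (nP l a c)
    have h2 : ∀ v : ι → F2, (∀ l, l ≠ i → ext w l = v l) →
        (∀ l, lv l ≠ 0 → e l = 0 → ap (elS lv e i S) (ext w) l = ap S v l) → v = 0 :=
      fun v a c => by_contra fun h0 => by
        obtain ⟨l, k1, k2, k3, k4⟩ := hN.det v
          (fun l k => (a l (ne l k)).symm.trans (eB w hw l k)) h0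
        exact one_ne_zero (k4.symm.trans ((c l (by omega) k3).symm.trans (h1 l k1 (by omega))))
    have h3 : ext w = 0 := by
      by_cases hne : ∑ l, e l = 0 ∧ ∑ l, z0 lv l = 0
      · exact h2 _ (fun _ _ => rfl) fun l' _ _ => by simp only [ap, elS, if_pos hne]
      · obtain ⟨v, v1, v2⟩ : ∃ v : ι → F2, (∀ l, l ≠ i → ext w l = v l) ∧ v i =
            ∑ l ∈ univ.erase i, z0 lv l • v l + (1 + ∑ l, z0 lv l) • ext w i :=
          ⟨Function.update (ext w) i _, fun l a => (Function.update_of_ne a _ _).symm, by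
            rw [Function.update_self, sum_congr rfl fun l k => by
              rw [Function.update_of_ne (ne_of_mem_erase k)]]⟩
        have c : ∀ l, lv l ≠ 0 → ap (elS lv e i S) (ext w) l = ap S v l + e l • ext w i :=
          fun l a => by
            rw [col hne v1 v2, if_neg fun x : l = i => a (x ▸ hF.lv0), z0, if_neg a, zero_smul,
              add_zero]
        have v0 := h2 v v1 fun l a k => by rw [c l a, k, zero_smul, add_zero]
        have d := (c q (by omega)).symm.trans (h1 q q1 (by omega))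
        rw [v0, q3, one_smul] at d
        exact funext fun l => if k : l = i then by simpa [ap, k] using d
          else (v1 l k).trans (congrFun v0 l)
    exact funext fun l => (ext_val w l).symm.trans (congrFun h3 l.1)
  · have h1 := (mem_filter.1 (mem_inter.1 hl).1).2
    rw [elP, mem_filter, h1]
    cases b <;> simp
  · refine (x5 _ (by split_ifs <;> omega)).trans
      ((hN.cnt (if b = true then 1 else 0) (by split_ifs <;> omega) ε).1.trans (le2 fun l hl => ?_))
    obtain ⟨h1, h2, h3⟩ := mem_filter.1 hl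
    exact ⟨Or.inl (ne l h1), mem_filter.2 ⟨mem_inter.2 ⟨mem_filter.2 ⟨mem_univ _, h2⟩, mB l h1⟩,
      (ec l h1).trans h3⟩⟩
  · refine (x5 0 (by omega)).trans ((hN.cnt 0 (by omega) 0).1.trans (le2 fun l hl => ?_))
    obtain ⟨h1, h2, -⟩ := mem_filter.1 hl
    exact ⟨Or.inl (ne l h1), mem_inter.2 ⟨mem_filter.2 ⟨mem_univ _, h2⟩, mB l h1⟩⟩
  · refine ((le1 fun l hl => ?_).trans hN.sml).trans
      (Nat.pow_le_pow_right two_pos (by unfold jj; omega))
    exact mem_compl.2 fun h1 => mem_compl.1 hl (mem_filter.2 ⟨mem_univ _, h1⟩)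
  · exact mem_filter.2 ⟨mem_univ _, (mem_filter.1 hl).2.1⟩
  · have h1 : ∑ l ∈ elO lv e i, z0 lv l.1 = (elO lv e i).card :=
      (sum_congr rfl (g := fun _ => 1) fun l hl => if_pos (mem_filter.1 hl).2.1).trans
        (by rw [sum_const, nsmul_one])
    have h2 := sum_erase_add univ (z0 lv) (mem_univ i)
    rw [← ZMod.natCast_eq_zero_iff_even, ← h1, sumO hF.lv0 (z0 lv) fun l a => if_neg a]
    rcases f2 (∑ l, z0 lv l) with k | k
    · rw [if_pos k, h2, k]
    · rw [if_neg (k ▸ one_ne_zero), add_zero]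
      rw [k, z0, if_pos hF.lv0] at h2
      exact add_eq_right.1 h2
  · exact mem_filter.2 ⟨mem_univ _, (mem_filter.1 (mem_inter.1 hl).1).2,
      Or.inl (ne _ (mem_filter.1 (mem_inter.1 hl).2).2)⟩
  · have h1 := (hN.cnt 0 (by omega) 0).2
    have h2 := (hN.cnt 0 (by omega) 1).2
    have h3 := card_union_le (B.filter fun l => lv l = 0 ∧ e l = 0)
      (B.filter fun l => lv l = 0 ∧ e l = 1)
    have h4 : 2 ^ (2 * jj tp j0 0 + 1) ≤ xx tp j0 1 ^ 11 := by
      rw [xx, ← pow_mul]
      exact Nat.pow_le_pow_right two_pos (by unfold jj; omega)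
    refine (le1 (t := (B.filter fun l => lv l = 0 ∧ e l = 0) ∪
      B.filter fun l => lv l = 0 ∧ e l = 1) fun l hl => ?_).trans (by omega)
    have h5 : lv l.1 = 0 := (mem_filter.1 (mem_inter.1 hl).1).2
    have h6 : l.1 ∈ B := (mem_filter.1 (mem_inter.1 hl).2).2
    exact mem_union.2 ((f2 (e l.1)).imp (fun h => mem_filter.2 ⟨h6, h5, h⟩)
      fun h => mem_filter.2 ⟨h6, h5, h⟩)

end Pool.Agent.MP_1246c0_nt.H25
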