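import Pool.Agent.MP_1246c0_nt.H25.SpecC

/-! The system of first order. -/

namespace Pool.Agent.MP_1246c0_nt.H25

open Finset Pool.Agent.MP_db5b97_nt.H85
open Pool.Agent.MP_1246c0_nt.H12

namespace FS

section ring

variable {Λ : Type} [CommRing Λ] (g : Λ)

theorem frob (h2 : (2 : Λ) = 0) (i : ℕ) : (g - 1) ^ 2 ^ i = g ^ 2 ^ i - 1 := by
  induction i with
  | zero => simp
  | succ i ih =>
    rw [pow_succ, pow_mul, pow_mul, ih]
    linear_combination (1 - g ^ 2 ^ i) * h2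

theorem geo (N o : ℕ) : g ^ N - 1 ∣ ∑ j ∈ range (N * o), g ^ j - o * ∑ j ∈ range N, g ^ j := by
  induction o with
  | zero => simp
  | succ o ih =>
    have e : ∑ j ∈ range (N * (o + 1)), g ^ j - (o + 1 : ℕ) * ∑ j ∈ range N, g ^ j
        = (∑ j ∈ range (N * o), g ^ j - o * ∑ j ∈ range N, g ^ j)
          + ((g ^ N) ^ o - 1 ^ o) * ∑ j ∈ range N, g ^ j := by
      rw [Nat.mul_succ, sum_range_add, ← pow_mul]
      simp only [pow_add, ← mul_sum]
      push_cast
      ring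
    rw [e]
    exact dvd_add ih ((sub_dvd_pow_sub_pow _ _ _).mul_right _)

theorem odd_cast (h2 : (2 : Λ) = 0) {o : ℕ} (h : Odd o) : (o : Λ) = 1 := by
  obtain ⟨k, rfl⟩ := h
  push_cast
  rw [h2, zero_mul, zero_add]

end ring

variable {M Λ G : Type} [AddCommGroup M] [CommRing Λ] [AddCommGroup G] [Module Λ G]
  {T s u : Module.End ℤ M} {π : M →+ G} {g : Λ} {s' u' : Module.End Λ G} {a : ℕ}

theorem mu_map (f : Module.End ℤ M) {j : ℕ} {x : M} (h : x ∈ Mu M j) : f x ∈ Mu M j := by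
  obtain ⟨y, rfl⟩ := mem_Mu.1 h
  exact ⟨f y, (map_nsmul f _ y).symm⟩

theorem mu_pow {U : Module.End ℤ M} {j : ℕ} (h : ∀ x, U x - x ∈ Mu M j) (q : ℕ) (x : M) :
    (U ^ q) x - x ∈ Mu M j := by
  induction q with
  | zero => simp
  | succ q ih => simpa [pow_succ'] using add_mem (h ((U ^ q) x)) ih

theorem kill_le {τ : Λ} {x : G} {i j : ℕ} (h : τ ^ 2 ^ i • x = 0) (hij : i ≤ j) :
    τ ^ 2 ^ j • x = 0 := by
  obtain ⟨c, e⟩ := pow_dvd_pow τ (Nat.pow_le_pow_right two_pos hij)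
  rw [e, mul_comm, mul_smul, h, smul_zero]

theorem two (h2 : (2 : Λ) = 0) (x : G) : x + x = 0 := by rw [← two_smul Λ, h2, zero_smul]

theorem val_sum (h2 : (2 : Λ) = 0) {κ : Type} (t : Finset κ) (f : κ → F2) (y : G) :
    ∑ k ∈ t, (f k).val • y = (∑ k ∈ t, f k).val • y := by
  classical
  induction t using Finset.induction_on with
  | empty => simp
  | insert k t hk ih =>
    rw [sum_insert hk, sum_insert hk, ih]
    generalize f k = b
    generalize ∑ k ∈ t, f k = c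
    have : ∀ b c : F2, (b + c).val = b.val + c.val ∨ (b.val = 1 ∧ c.val = 1 ∧ (b + c).val = 0) := by
      decide
    rcases this b c with h | ⟨h1, h3, h4⟩
    · rw [h, add_smul]
    · rw [h1, h3, h4, one_smul, zero_smul, two h2]

theorem cv_triv (h2 : (2 : Λ) = 0) (ht : ∀ y : G, g • y = y) {n : ℕ} (f : Co n) (y : G) :
    cv g f • y = (∑ k, f k).val • y := by
  have : ∀ k : ℕ, g ^ k • y = y := fun k => by
    induction k with
    | zero => simp
    | succ k ih => rw [pow_succ, mul_smul, ht, ih]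
  rw [cv, sum_smul, ← val_sum h2]
  exact sum_congr rfl fun k _ => by rw [mul_smul, this, Nat.cast_smul_eq_nsmul]

variable (q : Qt T s u π g s' u')
include q

theorem pi_pow (k : ℕ) (x : M) : π ((T ^ k) x) = g ^ k • π x := by
  induction k with
  | zero => simp
  | succ k ih => rw [pow_succ', Module.End.mul_apply, q.ht, ih, pow_succ', mul_smul]

theorem pi_tau (k : ℕ) (x : M) : π (((T - 1) ^ k) x) = (g - 1) ^ k • π x := by
  induction k with
  | zero => simp
  | succ k ih =>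
    rw [pow_succ', Module.End.mul_apply, LinearMap.sub_apply, map_sub, q.ht, Module.End.one_apply,
      ih, pow_succ', mul_smul, sub_smul, one_smul]

theorem pi_one {x : M} (h : x ∈ Mu M 1) : π x = 0 := by
  obtain ⟨y, rfl⟩ := mem_Mu.1 h
  exact q.two y

theorem pi_two {x : M} (h : x ∈ Mu M 2) : π x = 0 := by
  obtain ⟨y, rfl⟩ := mem_Mu.1 h
  rw [show 2 ^ 2 • y = 2 • 2 • y by rw [smul_smul]; rfl]
  exact q.two _

theorem pi_half (ad : Adm T s u a) {x : M} (h : 2 • x ∈ Mu M 2) : π x = 0 := by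
  obtain ⟨y, e⟩ := mem_Mu.1 h
  have : x - 2 • y = 0 := ad.tf _ (by rw [smul_sub, ← e, smul_smul]; exact sub_self _)
  rw [sub_eq_zero.1 this]
  exact q.two y

theorem pi_cw {n : ℕ} (f : Co n) (x : M) : π (cw T f x) = cv g f • π x := by
  rw [cw, cv, LinearMap.sum_apply, map_sum, sum_smul]
  exact sum_congr rfl fun k _ => by
    rw [LinearMap.smul_apply, map_nsmul, pi_pow q, mul_smul, Nat.cast_smul_eq_nsmul]

theorem pi_gs (k : ℕ) (x : M) : π (gs T k x) = (∑ j ∈ range k, g ^ j) • π x := by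
  rw [gs, LinearMap.sum_apply, map_sum, sum_smul]
  exact sum_congr rfl fun k _ => pi_pow q k x

variable (h2 : (2 : Λ) = 0) (ad : Adm T s u a)
include h2 ad

theorem kill_a {i : ℕ} (hi : a ≤ i) (z : G) : (g - 1) ^ 2 ^ i • z = 0 := by
  obtain ⟨x, rfl⟩ := q.sur z
  refine kill_le ?_ hi
  have := pi_two q (ad.hs x)
  rwa [map_sub, map_sub, q.two, sub_zero, pi_pow q, ← one_smul Λ (π x), smul_smul, mul_one,
    ← sub_smul, ← frob g h2] at this

/-- the relation only sees the value modulo `(g - 1) ^ 2 ^ i` -/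
theorem rel_add {i : ℕ} {x r r' z : G} (h : rel g s' u' a i x r)
    (e : r' = r + (g - 1) ^ 2 ^ i • z) : rel g s' u' a i x r' := by
  by_cases hi : i < a
  · rw [rel, if_pos hi] at h ⊢
    obtain ⟨y, rfl⟩ := q.sur z
    have k := pi_two q (ad.hu (by omega) y)
    rw [map_sub, q.two, sub_zero, q.hu, map_sub, pi_pow q, ← one_smul Λ (π y), smul_smul, mul_one,
      ← sub_smul, ← frob g h2, map_smul] at k
    rw [e, map_add, smul_add, ← h, map_smul, smul_smul, ← pow_add,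
      Nat.sub_add_cancel (Nat.pow_le_pow_right two_pos (by omega)), k, add_zero]
  · rwa [e, kill_a q h2 ad (not_lt.1 hi), add_zero]

variable (cc : SCC) {n : ℕ} (hn : a < n)
include cc hn

theorem gs_nu {i o : ℕ} (ho : Odd o) (m : G) : ∃ z : G,
    (∑ j ∈ range (((2 ^ i * o : ℕ) : ZMod (2 ^ n)).val), g ^ j) • m
      = nu i (g - 1) • m + (g - 1) ^ 2 ^ i • z := by
  obtain ⟨c, e⟩ := geo g (2 ^ i) o
  obtain ⟨c', e'⟩ := geo g (2 ^ n) (2 ^ i * o / 2 ^ n)
  have k : (∑ j ∈ range (2 ^ n), g ^ j) • m = 0 := by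
    obtain ⟨y, rfl⟩ := q.sur m
    rw [← pi_gs q, pi_one q ((cc.adm M T s u a ad).2.1 n y hn)]
  have k' : (∑ j ∈ range (2 ^ n * (2 ^ i * o / 2 ^ n)), g ^ j) • m = 0 := by
    rw [eq_add_of_sub_eq e', add_smul, ← frob g h2, mul_smul, kill_a q h2 ad hn.le, mul_smul, k,
      smul_zero, add_zero]
  refine ⟨c • m, ?_⟩
  rw [← Nat.mod_add_div (2 ^ i * o) (2 ^ n), sum_range_add, odd_cast h2 ho, one_mul,
    ← frob g h2] at e
  simp only [pow_add, ← mul_sum] at e
  rw [ZMod.val_natCast, nu, add_sub_cancel, smul_smul, ← add_smul, ← eq_add_of_sub_eq' e, add_smul,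
    mul_smul, k', smul_zero, add_zero]

/-- the local condition at one pair -/
theorem loc {d i o : ℕ} {ψ : Ga → M} {F σ : Ga} (ho : Odd o)
    (hk : kap n F = ((2 ^ i * o : ℕ) : ZMod (2 ^ n))) (hx : (g - 1) ^ 2 ^ i • π (ψ σ) = 0)
    (h : Ro d n T ψ (F, σ)) :
    rel g s' u' a i (π (ψ σ)) (π (ψ F) + (chi d F).val • π (ψ σ)) := by
  obtain ⟨y, hy⟩ := h
  obtain ⟨a1, -, a3, a4⟩ := cc.adm M T s u a ad
  obtain ⟨X, hX⟩ : ∃ X, X = ψ σ + 2 • y := ⟨_, rfl⟩
  have pX : π X = π (ψ σ) := by rw [hX, map_add, q.two, add_zero]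
  have gx : ∀ j, (g ^ 2 ^ i) ^ j • π (ψ σ) = π (ψ σ) := fun j => by
    rw [frob g h2, sub_smul, one_smul, sub_eq_zero] at hx
    induction j with
    | zero => simp
    | succ j ih => rw [pow_succ, mul_smul, hx, ih]
  obtain ⟨Y, hY⟩ : ∃ Y, Y = (∑ j ∈ range o, (T ^ 2 ^ i) ^ j) X := ⟨_, rfl⟩
  have pY : π Y = π (ψ σ) := by
    rw [hY, LinearMap.sum_apply, map_sum, sum_congr rfl fun j _ => by
      rw [← pow_mul, pi_pow q, pX, pow_mul, gx], sum_const, card_range, ← Nat.cast_smul_eq_nsmul Λ,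
      odd_cast h2 ho, one_smul]
  have e1 : (T ^ 2 ^ i) Y - Y = (T ^ (2 ^ i * o)) X - X := by
    have := congrArg (· X) (mul_geom_sum (T ^ 2 ^ i) o)
    simp only [Module.End.mul_apply, LinearMap.sub_apply, Module.End.one_apply, ← hY] at this
    rwa [← pow_mul] at this
  have e2 : (T ^ (2 ^ i * o)) X - (T ^ (kap n F).val) X ∈ Mu M 2 := by
    have := mu_map (T ^ (kap n F).val) (mu_pow (a1 2 n (by omega)).2 (2 ^ i * o / 2 ^ n) X)
    rwa [map_sub, ← Module.End.mul_apply, ← pow_mul, ← pow_add, hk, ZMod.val_natCast,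
      Nat.mod_add_div, ← ZMod.val_natCast, ← hk] at this
  obtain ⟨R, pR, hR⟩ : ∃ R, π R = π (ψ F) + (chi d F).val • π (ψ σ) ∧
      2 • R + ((T ^ 2 ^ i) Y - Y) ∈ Mu M 2 := by
    rw [Eo, acn] at hy
    rw [e1]
    rcases (by decide : ∀ c : F2, c.val = 0 ∨ c.val = 1) (chi d F) with c | c
    · refine ⟨ψ F, by rw [c, zero_smul, add_zero], ?_⟩
      convert add_mem hy e2 using 1
      simp only [c, hX, pow_zero, one_mul, map_add, map_nsmul]
      abel
    · refine ⟨ψ F - (T ^ (2 ^ i * o)) X, ?_, ?_⟩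
      · rw [c, one_smul, map_sub, pi_pow q, pX, pow_mul, gx, sub_eq_add_neg,
          neg_eq_of_add_eq_zero_left (two h2 _)]
      · convert sub_mem hy e2 using 1
        simp only [c, hX, pow_one, neg_mul, one_mul, LinearMap.neg_apply, map_add, map_nsmul]
        abel
  rw [← pR, rel]
  split_ifs with h1 h3
  · obtain ⟨v, v1, v2, -⟩ := a4 i h1
    have k : π (v R + Y) = 0 := pi_half q ad (by
      convert sub_mem (mu_map v hR) (v2 Y) using 1
      simp only [map_add, map_nsmul, smul_add]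
      abel)
    have k' := pi_one q (v1 R)
    rw [map_sub, Module.End.mul_apply, pi_tau q, q.hu, sub_eq_zero] at k'
    rw [map_add, k', pY] at k
    exact (eq_neg_of_add_eq_zero_right k).trans (neg_eq_of_add_eq_zero_left (two h2 _))
  · subst h3
    have k : π (R + s Y) = 0 := pi_half q ad (by
      convert sub_mem hR (ad.hs Y) using 1
      simp only [smul_add]
      abel)
    rw [map_add, q.hs, pY] at k
    exact (eq_neg_of_add_eq_zero_left k).trans (neg_eq_of_add_eq_zero_left (two h2 _))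
  · exact pi_half q ad (by simpa using sub_mem hR (a3 i Y (by omega)))

/-- the local condition at a pair without ramification -/
theorem loc1 {d : ℕ} {ψ : Ga → M} {F : Ga} (hk : kap n F = 0) (h1 : ψ 1 ∈ Mu M 1)
    (h : Ro d n T ψ (F, 1)) : π (ψ F) = 0 := by
  have := loc q h2 ad cc hn (i := n) odd_one (by rw [hk, mul_one, ZMod.natCast_self])
    (by rw [pi_one q h1, smul_zero]) h
  rwa [rel, if_neg (by omega), if_neg (by omega), pi_one q h1, smul_zero, add_zero] at this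

end FS

open FS in
theorem rowFS : OfFS := by
  intro dc _ cc d1 sy ι M Λ G _ _ _ _ _ _ S pr P n n0 a i1 T s u ψ st au g π s' u' M' ax lb ad hn
    hn0 lg q cg c
  have h2 := lg.lr.two
  have V := ax.one.v
  have Z := ax.one.z
  obtain ⟨-, od, -, -, gP, lP, eP, -⟩ := cc.lab ι S.Φ pr P i1 ax.one lb
  obtain ⟨a1, a2, -⟩ := cc.adm M T s u a ad
  obtain ⟨k1, k2, k3⟩ := d1.dec ι M S pr P n i1 T (Mu M 1) ψ ax lb le_rfl (a1 1 n (by omega))
    (fun x => a2 n x hn) c
  obtain ⟨en1, en2⟩ := sy.ent ι Λ S st au g n0 n pr P i1 ax lg lb hn0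
  have kill : ∀ l, (g - 1) ^ 2 ^ lev (pr l) • π (ψ (S.Φ.sg (pr l))) = 0 := fun l => by
    refine kill_le ?_ (min_le_left _ n)
    have := pi_one q (k1 l)
    rwa [map_sub, pi_pow q, ← one_smul Λ (π _), smul_smul, mul_one, ← sub_smul,
      ← frob g h2] at this
  have dec : ∀ h, π (ψ h) = ∑ l, cv g (fl S n (pr l) h) • π (ψ (S.Φ.sg (pr l)))
      + (chi (-1) h).val • π (ψ (S.Φ.sg 2))
      + (∑ j ∈ range (kap n h).val, g ^ j) • π (ψ (S.Φ.fr 2)) := fun h => by
    have := pi_one q (k3 h)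
    rw [map_sub, sub_eq_zero, map_add, map_add, map_sum, map_nsmul, pi_gs q] at this
    simpa only [pi_cw q] using this
  have err : ∀ l (c : Λ), (g - 1) ^ 2 ^ min (lev (pr l)) n0 ∣ c → c • π (ψ (S.Φ.sg (pr l))) = 0 := by
    rintro l _ ⟨c, rfl⟩
    rcases min_choice (lev (pr l)) n0 with e | e <;> rw [e]
    · rw [mul_comm, mul_smul, kill, smul_zero]
    · rw [lg.lr.nil, zero_mul, zero_smul]
  have o1 := cc.one M S.Φ _ P n T _ ψ Z c
  have f2 : (∀ y : G, g • y = y) → π (ψ S.Φ.f2)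
      = ∑ l, (z0 (fun i => lev (pr i)) l).val • π (ψ (S.Φ.sg (pr l))) := fun ht => by
    rw [dec, V.cm.2.2.2.1, V.kf2, ZMod.val_zero, ZMod.val_zero, zero_smul, range_zero, sum_empty,
      zero_smul, add_zero, add_zero]
    refine sum_congr rfl fun l _ => ?_
    have e := d1.ch S n (pr l) S.Φ.f2 ax (lb.odd l)
    have o := (lb.odd l).1.odd_of_ne_two (lb.odd l).2.1
    rw [V.cm.2.2.2.1, mul_zero, add_zero, (V.codd _ o).2.2] at e
    rw [cv_triv h2 ht, ← e, z0,
      if_congr (dc.cls _ (Nat.odd_iff.1 o) (lb.odd l).1.one_lt).1 rfl rfl]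
  refine ⟨kill, fun h => pi_one q (c.unr 2 Nat.prime_two (Or.inl ?_)), fun l h => ?_,
    fun _ h => ?_, fun h => ?_, fun h ht => ⟨fun h8 => ?_, fun h8 => ?_⟩, fun ht => ?_⟩
  · rw [(V.codd _ od).1, eps, if_neg (by omega)]
  · obtain ⟨o, ho, hk⟩ := V.kfr n (pr l) (lb.odd l)
    obtain ⟨z, hz⟩ := gs_nu q h2 ad cc hn (i := lev (pr l)) ho (π (ψ (S.Φ.fr 2)))
    have : ∀ l', ∃ z : G, M' l l' • π (ψ (S.Φ.sg (pr l'))) = (cv g (fl S n (pr l') (S.Φ.fr (pr l)))
        + if l = l' then ((chi (dd pr P) (S.Φ.fr (pr l))).val : Λ) else 0) • π (ψ (S.Φ.sg (pr l')))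
        + (g - 1) ^ 2 ^ lev (pr l) • z := fun l' => by
      have e := dvd_add (cg l l') (en1 l l')
      rw [sub_add_sub_cancel, min_assoc] at e
      rcases min_choice (lev (pr l)) (min (lev (pr l')) n0) with k | k <;> rw [k] at e
      · obtain ⟨c, e⟩ := e
        exact ⟨c • _, by rw [eq_add_of_sub_eq' e, add_smul _ (_ * c), mul_smul]⟩
      · exact ⟨0, by rw [smul_zero, add_zero, ← sub_eq_zero, ← sub_smul, err l' _ e]⟩
    choose w hw using this
    refine rel_add q h2 ad (loc q h2 ad cc hn ho hk (kill l) h) (z := ∑ l', w l' - z) ?_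
    rw [dec (S.Φ.fr (pr l)), hk, hz, V.cm.2.2.2.2 _ (lb.odd l), sum_congr rfl fun l' _ => hw l']
    simp only [add_smul, sum_add_distrib, ite_smul, zero_smul, sum_ite_eq, mem_univ, if_true,
      Nat.cast_smul_eq_nsmul, smul_sub, smul_sum]
    abel
  · have := loc q h2 ad cc hn (i := 0) odd_one (by rw [V.kf1]; simp) (by
      simpa [sub_smul, q.ht] using pi_one q k2) h
    rwa [(V.codd _ od).2.1, ZMod.val_zero, zero_smul, add_zero] at this
  · have := loc1 q h2 ad cc hn (V.kcj n) o1 h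
    rw [dec, V.cm.2.2.1, V.kcj, ZMod.val_zero, range_zero, sum_empty, zero_smul, add_zero,
      show (1 : F2).val = 1 from rfl, one_smul] at this
    rw [← this]
    refine congrArg (· + _) (sum_congr rfl fun l _ => ?_)
    rw [← sub_eq_zero, ← sub_smul, err l _ (en2 l)]
  · rw [p4, if_neg (by omega), if_pos h8] at h
    have e := loc1 q h2 ad cc hn (by rw [Z.kmul, V.kf2, V.ksg n 2 Nat.prime_two, add_zero]) o1 h
    have e' := pi_one q (c.coc S.Φ.f2 (S.Φ.sg 2))
    rw [map_sub, map_sub, e, f2 ht, acn, V.kf2, (V.codd _ od).2.2, if_pos (Or.inl h8)] at e'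
    simp only [ZMod.val_zero, pow_zero, show (1 : F2).val = 1 from rfl, pow_one, mul_one,
      LinearMap.neg_apply, Module.End.one_apply, map_neg] at e'
    linear_combination (norm := abel) -e'
  · rw [p4, if_neg (by omega), if_neg (by omega)] at h
    rw [← f2 ht, loc1 q h2 ad cc hn (V.kf2 n) o1 h]
  · obtain ⟨o, ho, hk⟩ := V.kfr n P gP
    obtain ⟨z, hz⟩ := gs_nu q h2 ad cc hn (i := lev P) ho (π (ψ (S.Φ.fr 2)))
    have e := dec (S.Φ.fr P)
    rw [pi_one q c.nrm, hk, hz, V.cm.2.2.2.2 P gP, eP, lP, nu, ZMod.val_zero, zero_smul, add_zero,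
      pow_zero, pow_one, range_one, sum_singleton, pow_zero, one_smul, sub_smul, ht, one_smul,
      sub_self, add_zero] at e
    rw [eq_neg_of_add_eq_zero_right e.symm, neg_eq_of_add_eq_zero_left (two h2 _)]
    refine sum_congr rfl fun l _ => ?_
    have k := d1.ch S n (pr l) (S.Φ.fr P) ax (lb.odd l)
    rw [V.cm.2.2.2.2 P gP, eP, mul_zero, add_zero, V.cfr P (pr l) gP fun x =>
      lb.ne l ((Nat.prime_dvd_prime_iff_eq lb.prime (lb.odd l).1).1 x).symm] at k
    rw [cv_triv h2 ht, ← k]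

end Pool.Agent.MP_1246c0_nt.H25
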