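import Pool.Agent.MP_1246c0_nt.H25.SpecA
import Pool.Agent.MP_db5b97_nt.H19.DENS
import Pool.Agent.MP_db5b97_nt.H21.NT2
import Pool.Agent.MP_db5b97_nt.H72.Z

/-! Squares modulo almost all primes are squares. -/

namespace Pool.Agent.MP_1246c0_nt.H25

open NumberField IsDedekindDomain Filter Topology Pool.Agent.MP_db5b97_nt
open Pool.Agent.MP_db5b97_nt.H85
open Pool.Agent.MP_1246c0_nt.H12

namespace SQ

theorem val_fix {F G : Type} [Field F] [NumberField F] [Group G] [MulSemiringAction G F] {s : G}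
    {w : Sp F} (h : s • w = w) (y : F) : w.valuation F (s • y) = w.valuation F y := by
  rcases eq_or_ne y 0 with rfl | hy
  · rw [smul_zero]
  · have e := NT2.ord_smul F G s w (Un.mk y hy)
    rw [h] at e
    have e1 := val_eq_exp w (s • Un.mk y hy)
    have e2 := val_eq_exp w (Un.mk y hy)
    rw [e, ← e2] at e1
    exact e1

theorem PS_fin {E : Type} [Field E] [NumberField E] {l : ℕ} {B : Set (Pr E l)} (hB : B.Finite)
    {s : ℝ} (hs : 1 < s) : H19.PS B s ≤ hB.toFinset.card := by
  rw [H19.PS, tsum_eq_sum (s := hB.toFinset) fun v hv => H19.wt_not (by simpa using hv) s]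
  have : ∀ v ∈ hB.toFinset, H19.wt B s v ≤ 1 := fun v hv => by
    rw [H19.wt_mem (by simpa using hv)]
    exact H19.nz_le_one _ (by linarith)
  simpa using Finset.sum_le_card_nsmul _ _ 1 this

/-- primes at which the square is a unit and a square are moved -/
theorem moved {L F G : Type} [Field L] [NumberField L] [Field F] [NumberField F] [Algebra L F]
    [Group G] [MulSemiringAction G F] [SMulCommClass G L F] {σ : G} {r : F} {x : L}
    (hr : r * r = algebraMap L F x) (hσ : σ • r = -r) (w : Pr F 2)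
    (h1 : (w.und L).1.valuation L x = 1) (h2 : qv (w.und L).1 x = 0) : σ • w ≠ w := by
  intro hw
  have hw' : σ • w.1 = w.1 := congrArg Subtype.val hw
  obtain ⟨z, hz⟩ : ∃ z : L, (w.und L).1.valuation L (x - z ^ 2) < 1 := by
    by_contra hc
    rw [qv, if_neg hc] at h2
    exact one_ne_zero h2
  have a1 : w.1.valuation F (r * r) = 1 := by
    have h1' : (und L w.1).valuation L x = 1 := h1
    rw [hr, NT2.val_inc L w.1 x, h1', one_pow]
  have a2 : w.1.valuation F ((r - algebraMap L F z) * (r - algebraMap L F (-z))) < 1 := by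
    have : (r - algebraMap L F z) * (r - algebraMap L F (-z)) = algebraMap L F (x - z ^ 2) := by
      rw [map_sub, map_neg, map_pow, ← hr]
      ring
    rw [this, NT2.val_inc L w.1]
    exact pow_lt_one₀ zero_le hz (NT2.ram_ne L w.1)
  have a3 : w.1.valuation F 2 = 1 := by
    have := (val_eq_one_iff w.1 ((2 : ℕ) : 𝓞 F)).2 w.2
    rw [RingOfIntegers.coe_eq_algebraMap, map_natCast] at this
    exact_mod_cast this
  have key : ∀ t : L, ¬ w.1.valuation F (r - algebraMap L F t) < 1 := by
    intro t ht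
    have b1 := val_fix hw' (r - algebraMap L F t)
    rw [smul_sub, hσ, smul_algebraMap] at b1
    have b2 : w.1.valuation F (2 * r) < 1 := by
      have : 2 * r = (r - algebraMap L F t) - (-r - algebraMap L F t) := by ring
      rw [this]
      exact Valuation.map_sub_lt _ ht (b1 ▸ ht)
    rw [map_mul, a3, one_mul] at b2
    rw [map_mul] at a1
    exact (mul_lt_one_of_nonneg_of_lt_one_left zero_le b2 b2.le).ne a1
  rw [map_mul] at a2
  exact absurd a2 (not_lt.2 (one_le_mul_of_one_le_of_one_le (not_lt.1 (key z)) (not_lt.1 (key (-z)))))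

theorem core {L F : Type} [Field L] [NumberField L] [Field F] [NumberField F] [Algebra L F]
    (h2 : Module.finrank L F = 2) {σ : F ≃ₐ[L] F} {r : F} {x : Un L}
    (hr : r * r = algebraMap L F x.val) (hσ : σ r = -r)
    (hx : {w : Pr L 2 | qv w.1 x.val ≠ 0}.Finite) : False := by
  have : Algebra.IsQuadraticExtension L F := { finrank_eq_two' := h2 }
  have hG : Nat.card (F ≃ₐ[L] F) = 2 := by rw [IsGalois.card_aut_eq_finrank, h2]
  let B : Set (Pr L 2) := {w | qv w.1 x.val ≠ 0} ∪ {w | ord w.1 x ≠ 0}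
  have hB : B.Finite := hx.union ((ord_finite L x).preimage Subtype.val_injective.injOn)
  obtain ⟨C, hC⟩ := H19.PS_univ L 2 H72.rowZ two_ne_zero
  obtain ⟨C', hC'⟩ := H19.PS_univ F 2 H72.rowZ two_ne_zero
  refine H19.not_bdd (2 * C + C' + 2 * hB.toFinset.card) ?_
  filter_upwards [hC, hC', self_mem_nhdsWithin] with s g1 g2 (hs : 1 < s)
  have a1 := H19.split L H72.rowZ Nat.prime_two hG σ Bᶜ (fun w hw => by
    simp only [B, Set.mem_compl_iff, Set.mem_union, Set.mem_ofPred_eq, not_or, not_not] at hw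
    exact moved hr hσ w ((ord_eq_zero_iff _ _).1 hw.2) hw.1) hs
  have a2 := H19.PS_le_add H72.rowZ (A := Set.univ) (B := B) (C := Bᶜ) (by simp) hs
  have a3 := PS_fin hB hs
  push_cast at a1
  linarith [g1.1, g2.2]

end SQ

theorem rowSQ : SSQ := by
  intro L _ _ x hx
  by_contra! hc
  have : Fact (∀ r : L, r ^ 2 ≠ x.val + 0 * r) := ⟨fun r hr => by
    rw [zero_mul, add_zero] at hr
    have h0 : r ≠ 0 := fun h => x.val_ne (by rw [← hr, h]; ring)
    exact hc (Un.mk r h0) (Un.ext (by rw [Un.val_nsmul, Un.val_mk, hr]))⟩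
  have : NumberField (QuadraticAlgebra L x.val 0) := NumberField.of_module_finite L _
  have hr : (QuadraticAlgebra.omega : QuadraticAlgebra L x.val 0) * QuadraticAlgebra.omega =
      algebraMap L _ x.val := by
    ext <;> simp
  let σ : QuadraticAlgebra L x.val 0 ≃ₐ[L] QuadraticAlgebra L x.val 0 :=
    AlgEquiv.ofRingEquiv (f := starRingAut) fun y => by ext <;> simp
  exact SQ.core (QuadraticAlgebra.finrank_eq_two _ _) (σ := σ) hr (by ext <;> simp [σ]) hx

end Pool.Agent.MP_1246c0_nt.H25
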